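import Pool.Agent.H43.HL.New

set_option autoImplicit false

/-!
# The square `A(X(T)) + T B(X(T)) = c (T - p) Y(T) ^ 2`
-/

open Polynomial

namespace Pool.Agent.H43.HL

variable {p q r t : ℚ} {Ua Ub Uc Ud Va Vb Vc Vd B Ua' Ub' Vc' Vd' B' : ℚ[X]}

/-- the quartic -/
noncomputable def quart (p q r t : ℚ) : ℚ[X] :=
  (X - C p) * (X - C q) * ((X - C r) * (X - C t))

/-- `A(X(T)) + T B(X(T))` where `A₁ = A + p B` -/
noncomputable def al (Q : ℚ[X]) (p : ℚ) (A₁ B : ℚ[X]) : ℚ[X] :=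
  A₁.comp Q + (X - C p) * B.comp Q

theorem dvd_of_sq {Y Z : ℚ[X]} (hY : Y ≠ 0) {q : ℚ} (h : Y ^ 2 ∣ (X - C q) * Z ^ 2) : Y ∣ Z := by
  rcases eq_or_ne Z 0 with rfl | hZ
  · exact dvd_zero _
  have hcop := isCoprime_div_gcd_div_gcd (p := Y) (q := Z) hZ
  set g := GCDMonoid.gcd Y Z with hg
  have hg0 : g ≠ 0 := fun h0 => hZ ((gcd_eq_zero_iff _ _).1 h0).2
  obtain ⟨y, hy⟩ := gcd_dvd_left Y Z
  obtain ⟨z, hz⟩ := gcd_dvd_right Y Z
  rw [← hg] at hy hz
  have ey : Y / g = y := by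
    rw [hy]; exact mul_div_cancel_left₀ y hg0
  have ez : Z / g = z := by
    rw [hz]; exact mul_div_cancel_left₀ z hg0
  rw [ey, ez] at hcop
  have h1 : y ^ 2 ∣ (X - C q) * z ^ 2 := by
    have : g ^ 2 * y ^ 2 ∣ g ^ 2 * ((X - C q) * z ^ 2) := by
      convert h using 1
      · rw [hy]; ring
      · rw [hz]; ring
    exact (mul_dvd_mul_iff_left (pow_ne_zero 2 hg0)).1 this
  have h2 : y ^ 2 ∣ X - C q := (hcop.pow (m := 2) (n := 2)).dvd_of_dvd_mul_right h1
  have h3 : y.natDegree = 0 := by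
    have h4 := natDegree_le_of_dvd h2 (X_sub_C_ne_zero q)
    rw [natDegree_pow, natDegree_X_sub_C] at h4
    omega
  have hy0 : y ≠ 0 := by
    rintro rfl
    exact hY (by rw [hy, mul_zero])
  have h5 : IsUnit y := by
    rw [eq_C_of_natDegree_eq_zero h3]
    rw [isUnit_C, isUnit_iff_ne_zero]
    intro h6
    apply hy0
    rw [eq_C_of_natDegree_eq_zero h3, h6, map_zero]
  rw [hy, hz]
  exact mul_dvd_mul_left g h5.dvd

theorem al_mul (S : St p q r t Ua Ub Uc Ud Va Vb Vc Vd B) (N : NZ Ua Ub Uc Ud Va Vb Vc Vd B)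
    (R : Rel p q r t Ua Ub Uc Ud Va Vb Vc Vd B Ua' Ub' Vc' Vd' B') :
    al (quart p q r t) p (X * Ua * Va) B * al (quart p q r t) q (X * Ub' * Va) B' =
      (X - C p) * (X - C q) * ((X - C r) * (X - C t) * (Va * Vb).comp (quart p q r t) -
        (Uc * Ud).comp (quart p q r t)) ^ 2 := by
  set Q := quart p q r t with hQ
  have h1 := congrArg (fun f => f.comp Q) S.h1
  have n2 := congrArg (fun f => f.comp Q) R.n2
  have n5 := congrArg (fun f => f.comp Q) R.n5
  have e := congrArg (fun f => f.comp Q) (e1 S N R)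
  simp only [mul_comp, add_comp, sub_comp, X_comp, C_comp, pow_comp, ofNat_comp] at h1 n2 n5 e
  simp only [al, mul_comp, X_comp]
  have hQ' : Q = (X - C p) * (X - C q) * ((X - C r) * (X - C t)) := hQ
  push_cast at n2 n5 e
  generalize Ua.comp Q = ua at *
  generalize Ub.comp Q = ub at *
  generalize Uc.comp Q = uc at *
  generalize Ud.comp Q = ud at *
  generalize Va.comp Q = va at *
  generalize Vb.comp Q = vb at *
  generalize Ub'.comp Q = ub' at *
  generalize B.comp Q = b at *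
  generalize B'.comp Q = b' at *
  have key : Q * ua * va + (X - C p) * b = ub * vb + (X - C q) * b := by
    linear_combination -h1
  rw [key]
  linear_combination (-Q * va * vb) * n2 + (X - C q) * e - (X - C q) ^ 2 * n5 +
    (va * vb * ((C q - C r) * (C q - C t) * (va * vb) - 2 * (uc * ud)) +
      (X - C q) * (va * vb) ^ 2 * (2 * C q - C r - C t) + (X - C q) ^ 2 * (va * vb) ^ 2) * hQ'

end Pool.Agent.H43.HL

namespace Pool.Agent.H43.HL

variable {p q r t : ℚ} {Ua Ub Uc Ud Va Vb Vc Vd B Ua' Ub' Vc' Vd' B' : ℚ[X]}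

theorem natDegree_quart (p q r t : ℚ) : (quart p q r t).natDegree = 4 := by
  rw [quart, natDegree_mul (mul_ne_zero (X_sub_C_ne_zero _) (X_sub_C_ne_zero _))
    (mul_ne_zero (X_sub_C_ne_zero _) (X_sub_C_ne_zero _)), natDegree_mul (X_sub_C_ne_zero _)
    (X_sub_C_ne_zero _), natDegree_mul (X_sub_C_ne_zero _) (X_sub_C_ne_zero _)]
  simp

theorem quart_comm (p q r t : ℚ) : quart q p r t = quart p q r t := by
  rw [quart, quart]; ring

theorem al_ne_zero {A₁ B : ℚ[X]} (p q r t s : ℚ) (hB : B ≠ 0) : al (quart p q r t) s A₁ B ≠ 0 := by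
  intro h
  have hc : (B.comp (quart p q r t)) ≠ 0 := by
    intro h0
    rw [comp_eq_zero_iff] at h0
    rcases h0 with h0 | ⟨-, h0⟩
    · exact hB h0
    · have := natDegree_quart p q r t
      rw [h0, natDegree_C] at this
      omega
  have h1 : A₁.comp (quart p q r t) = -((X - C s) * B.comp (quart p q r t)) := by
    rw [al] at h
    exact eq_neg_of_add_eq_zero_left h
  have h2 := congrArg natDegree h1
  rw [natDegree_neg, natDegree_mul (X_sub_C_ne_zero _) hc, natDegree_comp, natDegree_comp,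
    natDegree_quart, natDegree_X_sub_C] at h2
  omega

/-- the square property -/
def Alph (p q r t : ℚ) (Ua Va B : ℚ[X]) : Prop :=
  ∃ c : ℚ, c ≠ 0 ∧ ∃ Y : ℚ[X], Y ≠ 0 ∧
    al (quart p q r t) p (X * Ua * Va) B = C c * (X - C p) * Y ^ 2

theorem Alph.new (S : St p q r t Ua Ub Uc Ud Va Vb Vc Vd B) (N : NZ Ua Ub Uc Ud Va Vb Vc Vd B)
    (R : Rel p q r t Ua Ub Uc Ud Va Vb Vc Vd B Ua' Ub' Vc' Vd' B') (hB' : B' ≠ 0)
    (H : Alph p q r t Ua Va B) : Alph q p r t Ub' Va B' := by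
  obtain ⟨c, hc, Y, hY, h⟩ := H
  have h1 := al_mul S N R
  rw [h] at h1
  set Z := (X - C r) * (X - C t) * (Va * Vb).comp (quart p q r t) -
        (Uc * Ud).comp (quart p q r t) with hZ
  set a := al (quart p q r t) q (X * Ub' * Va) B' with ha
  have ha0 : a ≠ 0 := al_ne_zero p q r t q hB'
  have h2 : Y ^ 2 * (C c * a) = (X - C q) * Z ^ 2 := by
    refine mul_left_cancel₀ (X_sub_C_ne_zero p) ?_
    linear_combination h1
  obtain ⟨y, hy⟩ := dvd_of_sq hY ⟨_, h2.symm⟩
  have h3 : C c * a = (X - C q) * y ^ 2 := by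
    refine mul_left_cancel₀ (pow_ne_zero 2 hY) ?_
    rw [h2, hy]; ring
  refine ⟨c⁻¹, inv_ne_zero hc, y, ?_, ?_⟩
  · rintro rfl
    have : C c * a = 0 := by rw [h3]; ring
    rcases mul_eq_zero.1 this with h4 | h4
    · exact hc (C_eq_zero.1 h4)
    · exact ha0 h4
  · rw [quart_comm, ← ha]
    have h4 : C c⁻¹ * (C c * a) = a := by
      rw [← mul_assoc, ← C_mul, inv_mul_cancel₀ hc, C_1, one_mul]
    rw [← h4, h3]; ring

theorem Alph.permBC (H : Alph p q r t Ua Va B) : Alph p r q t Ua Va B := by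
  have : quart p r q t = quart p q r t := by rw [quart, quart]; ring
  rw [Alph, this]; exact H

theorem Alph.permBD (H : Alph p q r t Ua Va B) : Alph p t r q Ua Va B := by
  have : quart p t r q = quart p q r t := by rw [quart, quart]; ring
  rw [Alph, this]; exact H

theorem Alph.swap (H : Alph p q r t Ua Va B) : Alph p q r t Va Ua B := by
  have : X * Va * Ua = X * Ua * Va := by ring
  rw [Alph, this]; exact H

end Pool.Agent.H43.HL
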