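import Pool.Agent.H43.HL.Reach

set_option autoImplicit false

/-!
# The first section
-/

open Polynomial

namespace Pool.Agent.H43.HL

theorem base (p a b c ω : ℚ) (hω : 2 * ω = (b - a) * (c - a)) (ha : a ≠ 0) (hab : a ≠ b)
    (hac : a ≠ c) (hs : b + c - 2 * a ≠ 0) : Ev p a b c 1 0 0 := by
  have ho : ω ≠ 0 := by
    rintro rfl
    rw [mul_zero, eq_comm] at hω
    rcases mul_eq_zero.1 hω with h | h
    · exact hab (by linarith)
    · exact hac (by linarith)
  have hoC : C ω * C ω⁻¹ = (1 : ℚ[X]) := by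
    rw [← C_mul, mul_inv_cancel₀ ho, C_1]
  have hωC : (2 : ℚ[X]) * C ω = (C b - C a) * (C c - C a) := by
    have := congrArg (C : ℚ → ℚ[X]) hω
    simpa only [map_mul, map_sub, map_ofNat] using this
  refine ⟨1, 0, 1, 0, 0, ⟨C (-2 * a * ω), C (b + c - 2 * a) * X + C ((b + c) * ω ^ 2), 1, 1,
    C ω⁻¹, 1, C (c - a) * X + C ((a + c) * ω ^ 2), C (b - a) * X + C ((a + b) * ω ^ 2),
    X + C (ω ^ 2), ?_⟩, by norm_num, by norm_num, by norm_num, by norm_num, by norm_num⟩
  have hz : zv p a b c (2 * 1) (2 * 0) (2 * 0) 0 = p + 2 * a := by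
    simp only [zv]; push_cast; ring
  rw [hz]
  have hA : X * C (-2 * a * ω) * C ω⁻¹ = C (-2 * a) * (X : ℚ[X]) := by
    simp only [map_mul, map_neg]
    linear_combination (X * -C 2 * C a) * hoC
  have hBdeg : (X + C (ω ^ 2) : ℚ[X]).natDegree = 1 := natDegree_X_add_C _
  have hk : (-2 * a) ≠ 0 := mul_ne_zero (by norm_num) ha
  refine ⟨⟨?_, ?_, ?_, ?_, ?_⟩, ?_, ?_, hBdeg, ?_, ?_, ?_, ?_, ?_, ?_, ?_, ?_, ?_, ?_⟩
  · rw [hA]
    simp only [map_mul, map_neg, map_sub, map_add, map_pow, map_ofNat]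
    ring
  · rw [hA]
    simp only [map_mul, map_neg, map_sub, map_add, map_pow, map_ofNat]
    ring
  · rw [hA]
    simp only [map_mul, map_neg, map_sub, map_add, map_pow, map_ofNat]
    ring
  · simp only [map_mul, map_neg, map_sub, map_add, map_pow, map_ofNat]
    linear_combination (-(C ω⁻¹) * X ^ 2 - (2 * C ω * X + C ω ^ 3)) * hωC +
      (2 * X ^ 2 + ((C c - C a) * (C a + C b) + (C a + C c) * (C b - C a)) * C ω * X +
        (C a + C c) * (C a + C b) * C ω ^ 3) * hoC
  · rw [hA]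
    have h1 : IsCoprime (X : ℚ[X]) (X + C (ω ^ 2)) := by
      refine ⟨-C (ω ^ 2)⁻¹, C (ω ^ 2)⁻¹, ?_⟩
      have : C (ω ^ 2)⁻¹ * C (ω ^ 2) = (1 : ℚ[X]) := by
        rw [← C_mul, inv_mul_cancel₀ (pow_ne_zero 2 ho), C_1]
      linear_combination this
    exact (isCoprime_mul_unit_left_left (isUnit_C.2 (isUnit_iff_ne_zero.2 hk)) _ _).2 h1
  · have hal : al (quart p (p + b + c) (p + a + c) (p + a + b)) p
        (X * C (-2 * a * ω) * C ω⁻¹) (X + C (ω ^ 2)) = C 1 * (X - C p) *
        ((X - C (p + b + c)) * (X - C (p + 2 * a)) + C ω) ^ 2 := by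
      rw [hA]
      simp only [al, quart, mul_comp, add_comp, X_comp, C_comp]
      simp only [map_mul, map_neg, map_sub, map_add, map_pow, map_ofNat, map_one]
      linear_combination (-(X - C p) * ((X - (C p + C b + C c)) * (X - (C p + 2 * C a)))) * hωC
    refine ⟨1, one_ne_zero, (X - C (p + b + c)) * (X - C (p + 2 * a)) + C ω, ?_, hal⟩
    intro h0
    refine al_ne_zero p (p + b + c) (p + a + c) (p + a + b) p
      (A₁ := X * C (-2 * a * ω) * C ω⁻¹) (X_add_C_ne_zero (ω ^ 2)) ?_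
    rw [hal, h0]
    simp
  · exact X_add_C_ne_zero _
  · exact natDegree_C _
  · exact natDegree_linear hs
  · exact natDegree_one
  · exact natDegree_one
  · rw [hA]; exact (natDegree_C_mul_le _ _).trans natDegree_X_le
  · rw [hA, coeff_C_mul, coeff_X_one, coeff_add, coeff_X_one, coeff_C_succ]; ring
  · intro h; exact ha (by linarith)
  · intro h; exact hs (by linarith)
  · intro h; exact hac (by linarith)
  · intro h; exact hab (by linarith)

end Pool.Agent.H43.HL
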