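import Pool.Agent.H43.HL.Alpha

set_option autoImplicit false

/-!
# Degrees
-/

open Polynomial

namespace Pool.Agent.H43.HL

/-- the abstract asymptotic computation -/
theorem asy {B B' A' Ab η γ : ℚ[X]} {c1 c2 : ℚ} {d n : ℕ} (h5 : η + γ = B * B')
    (h1 : B * A' + B' * Ab = η * C c2 + γ * C c1) (hη : η.natDegree ≤ n) (hγ : γ.natDegree ≤ n)
    (hn : η.coeff n + γ.coeff n ≠ 0) (hB : B.natDegree = d) (hB0 : B ≠ 0)
    (hAb : Ab.natDegree ≤ d) :
    B' ≠ 0 ∧ B'.natDegree + d = n ∧ A'.natDegree ≤ B'.natDegree ∧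
      B.coeff d * B'.coeff B'.natDegree = η.coeff n + γ.coeff n ∧
      B.coeff d * A'.coeff B'.natDegree + B'.coeff B'.natDegree * Ab.coeff d =
        η.coeff n * c2 + γ.coeff n * c1 := by
  have hsum : (η + γ).natDegree = n := by
    refine le_antisymm ((natDegree_add_le _ _).trans (max_le hη hγ)) ?_
    exact le_natDegree_of_ne_zero (by rw [coeff_add]; exact hn)
  have hB' : B' ≠ 0 := by
    rintro rfl
    rw [mul_zero] at h5
    apply hn
    rw [← coeff_add, h5, coeff_zero]
  have hdeg : d + B'.natDegree = n := by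
    rw [← hB, ← natDegree_mul hB0 hB', ← h5, hsum]
  have hA' : A'.natDegree ≤ B'.natDegree := by
    rcases eq_or_ne A' 0 with rfl | hA0
    · simp
    have h2 : B * A' = η * C c2 + γ * C c1 - B' * Ab := by linear_combination h1
    have h3 : (B * A').natDegree ≤ n := by
      rw [h2]
      refine (natDegree_sub_le _ _).trans (max_le ((natDegree_add_le _ _).trans (max_le ?_ ?_)) ?_)
      · exact (natDegree_mul_C_le _ _).trans hη
      · exact (natDegree_mul_C_le _ _).trans hγ
      · refine natDegree_mul_le.trans ?_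
        omega
    rw [natDegree_mul hB0 hA0, hB] at h3
    omega
  refine ⟨hB', by omega, hA', ?_, ?_⟩
  · have h6 := congrArg (fun f => f.coeff n) h5
    simp only [coeff_add] at h6
    rw [h6, ← hdeg]
    exact (coeff_mul_add_eq_of_natDegree_le hB.le le_rfl).symm
  · have h6 := congrArg (fun f => f.coeff n) h1
    simp only [coeff_add, coeff_mul_C] at h6
    rw [← h6]
    have e1 : (B * A').coeff n = B.coeff d * A'.coeff B'.natDegree := by
      rw [← hdeg]; exact coeff_mul_add_eq_of_natDegree_le hB.le hA'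
    have e2 : (B' * Ab).coeff n = B'.coeff B'.natDegree * Ab.coeff d := by
      rw [← hdeg, add_comm]; exact coeff_mul_add_eq_of_natDegree_le le_rfl hAb
    rw [e1, e2]

end Pool.Agent.H43.HL
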