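import Pool.Agent.H43.HL.Deg

set_option autoImplicit false

/-!
# Sections with their degrees
-/

open Polynomial

namespace Pool.Agent.H43.HL

/-- a section with its degrees; `z` is the value of `s` at infinity -/
structure Full (p q r t z : ℚ) (d ua ub uc ud : ℕ) (Ua Ub Uc Ud Va Vb Vc Vd B : ℚ[X]) : Prop where
  st : St p q r t Ua Ub Uc Ud Va Vb Vc Vd B
  al : Alph p q r t Ua Va B
  b0 : B ≠ 0
  dB : B.natDegree = d
  dUa : Ua.natDegree = ua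
  dUb : Ub.natDegree = ub
  dUc : Uc.natDegree = uc
  dUd : Ud.natDegree = ud
  hA : (X * Ua * Va).natDegree ≤ d
  cA : (X * Ua * Va).coeff d = (p - z) * B.coeff d
  zp : z ≠ p
  zq : z ≠ q
  zr : z ≠ r
  zt : z ≠ t

theorem prod_deg {f g : ℚ[X]} {d : ℕ} (h : (f * g).natDegree ≤ d) (hc : (f * g).coeff d ≠ 0) :
    f ≠ 0 ∧ g ≠ 0 ∧ f.natDegree + g.natDegree = d := by
  have h1 : (f * g).natDegree = d := le_antisymm h (le_natDegree_of_ne_zero hc)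
  have h2 : f * g ≠ 0 := by
    intro h0; rw [h0, coeff_zero] at hc; exact hc rfl
  have hf : f ≠ 0 := left_ne_zero_of_mul h2
  have hg : g ≠ 0 := right_ne_zero_of_mul h2
  exact ⟨hf, hg, by rw [← natDegree_mul hf hg, h1]⟩

theorem lin_deg {A B W : ℚ[X]} {d : ℕ} {c s z : ℚ} (hA : A.natDegree ≤ d) (hB : B.natDegree = d)
    (hW : W = A + (C c - C s) * B) (hc : A.coeff d = (s - z) * B.coeff d) :
    W.natDegree ≤ d ∧ W.coeff d = (c - z) * B.coeff d := by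
  subst hW
  rw [← C_sub]
  constructor
  · refine (natDegree_add_le _ _).trans (max_le hA ?_)
    exact (natDegree_C_mul_le _ _).trans hB.le
  · rw [coeff_add, coeff_C_mul, hc]; ring

variable {p q r t z : ℚ} {d ua ub uc ud : ℕ} {Ua Ub Uc Ud Va Vb Vc Vd B : ℚ[X]}

theorem Full.lcB (F : Full p q r t z d ua ub uc ud Ua Ub Uc Ud Va Vb Vc Vd B) :
    B.coeff d ≠ 0 := by
  rw [← F.dB, coeff_natDegree, leadingCoeff_ne_zero]; exact F.b0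

theorem Full.degA (F : Full p q r t z d ua ub uc ud Ua Ub Uc Ud Va Vb Vc Vd B) :
    Ua ≠ 0 ∧ Va ≠ 0 ∧ 1 + ua + Va.natDegree = d := by
  have h : (X * Ua * Va).coeff d ≠ 0 := by
    rw [F.cA]; exact mul_ne_zero (sub_ne_zero.2 F.zp.symm) F.lcB
  obtain ⟨h1, h2, h3⟩ := prod_deg F.hA h
  have h4 : Ua ≠ 0 := right_ne_zero_of_mul h1
  rw [natDegree_mul X_ne_zero h4, natDegree_X, F.dUa] at h3
  exact ⟨h4, h2, h3⟩

theorem Full.degB (F : Full p q r t z d ua ub uc ud Ua Ub Uc Ud Va Vb Vc Vd B) :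
    Ub ≠ 0 ∧ Vb ≠ 0 ∧ ub + Vb.natDegree = d := by
  obtain ⟨h1, h2⟩ := lin_deg F.hA F.dB F.st.h1 F.cA
  obtain ⟨h3, h4, h5⟩ := prod_deg h1 (by
    rw [h2]; exact mul_ne_zero (sub_ne_zero.2 F.zq.symm) F.lcB)
  rw [F.dUb] at h5
  exact ⟨h3, h4, h5⟩

theorem Full.degC (F : Full p q r t z d ua ub uc ud Ua Ub Uc Ud Va Vb Vc Vd B) :
    Uc ≠ 0 ∧ Vc ≠ 0 ∧ uc + Vc.natDegree = d := by
  obtain ⟨h1, h2⟩ := lin_deg F.hA F.dB F.st.h2 F.cA
  obtain ⟨h3, h4, h5⟩ := prod_deg h1 (by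
    rw [h2]; exact mul_ne_zero (sub_ne_zero.2 F.zr.symm) F.lcB)
  rw [F.dUc] at h5
  exact ⟨h3, h4, h5⟩

theorem Full.degD (F : Full p q r t z d ua ub uc ud Ua Ub Uc Ud Va Vb Vc Vd B) :
    Ud ≠ 0 ∧ Vd ≠ 0 ∧ ud + Vd.natDegree = d := by
  obtain ⟨h1, h2⟩ := lin_deg F.hA F.dB F.st.h3 F.cA
  obtain ⟨h3, h4, h5⟩ := prod_deg h1 (by
    rw [h2]; exact mul_ne_zero (sub_ne_zero.2 F.zt.symm) F.lcB)
  rw [F.dUd] at h5
  exact ⟨h3, h4, h5⟩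

/-- there is a section with the given degrees -/
def FullE (p q r t z : ℚ) (d ua ub uc ud : ℕ) : Prop :=
  ∃ Ua Ub Uc Ud Va Vb Vc Vd B : ℚ[X], Full p q r t z d ua ub uc ud Ua Ub Uc Ud Va Vb Vc Vd B

theorem FullE.swap (F : FullE p q r t z d ua ub uc ud) :
    ∃ va vb vc vd, FullE p q r t z d va vb vc vd ∧ 1 + ua + va = d ∧ ub + vb = d ∧ uc + vc = d ∧
      ud + vd = d := by
  obtain ⟨Ua, Ub, Uc, Ud, Va, Vb, Vc, Vd, B, F⟩ := F
  refine ⟨Va.natDegree, Vb.natDegree, Vc.natDegree, Vd.natDegree,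
    ⟨Va, Vb, Vc, Vd, Ua, Ub, Uc, Ud, B, ⟨F.st.swap, F.al.swap, F.b0, F.dB, rfl, rfl, rfl, rfl, ?_,
      ?_, F.zp, F.zq, F.zr, F.zt⟩⟩, F.degA.2.2, F.degB.2.2, F.degC.2.2, F.degD.2.2⟩
  · have : X * Va * Ua = X * Ua * Va := by ring
    rw [this]; exact F.hA
  · have : X * Va * Ua = X * Ua * Va := by ring
    rw [this]; exact F.cA

theorem FullE.permBC (F : FullE p q r t z d ua ub uc ud) : FullE p r q t z d ua uc ub ud := by
  obtain ⟨Ua, Ub, Uc, Ud, Va, Vb, Vc, Vd, B, F⟩ := F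
  exact ⟨Ua, Uc, Ub, Ud, Va, Vc, Vb, Vd, B, ⟨F.st.permBC, F.al.permBC, F.b0, F.dB, F.dUa, F.dUc,
    F.dUb, F.dUd, F.hA, F.cA, F.zp, F.zr, F.zq, F.zt⟩⟩

theorem FullE.permBD (F : FullE p q r t z d ua ub uc ud) : FullE p t r q z d ua ud uc ub := by
  obtain ⟨Ua, Ub, Uc, Ud, Va, Vb, Vc, Vd, B, F⟩ := F
  exact ⟨Ua, Ud, Uc, Ub, Va, Vd, Vc, Vb, B, ⟨F.st.permBD, F.al.permBD, F.b0, F.dB, F.dUa, F.dUd,
    F.dUc, F.dUb, F.hA, F.cA, F.zp, F.zt, F.zr, F.zq⟩⟩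

theorem FullE.new (F : FullE p q r t z d ua ub uc ud) (hrp : r ≠ p) (htp : t ≠ p)
    (hrq : r ≠ q) (htq : t ≠ q) (hne : p + q ≠ r + t) {z' : ℚ}
    (hz : (ua + ub + uc + ud = 2 * d ∧ z' = p + q - z) ∨
      (ua + ub + uc + ud + 1 = 2 * d ∧ z' = r + t - z))
    (zp : z' ≠ p) (zq : z' ≠ q) (zr : z' ≠ r) (zt : z' ≠ t) :
    ∃ d' ua' ub', FullE q p r t z' d' ub' ua' ud uc ∧ ub' + d = d' + ua ∧ ua' + d = d' + ub ∧
      ((ua + ub + uc + ud = 2 * d ∧ d' + d = 2 * (uc + ud)) ∨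
        (ua + ub + uc + ud + 1 = 2 * d ∧ d' + d = 2 * (uc + ud) + 1)) := by
  obtain ⟨Ua, Ub, Uc, Ud, Va, Vb, Vc, Vd, B, F⟩ := F
  obtain ⟨ua0, va0, hva⟩ := F.degA
  obtain ⟨ub0, vb0, hvb⟩ := F.degB
  obtain ⟨uc0, vc0, hvc⟩ := F.degC
  obtain ⟨ud0, vd0, hvd⟩ := F.degD
  have N : NZ Ua Ub Uc Ud Va Vb Vc Vd B := ⟨ua0, ub0, uc0, ud0, va0, vb0, vc0, vd0, F.b0⟩
  obtain ⟨Ua', Ub', Vc', Vd', B', n1, n2, n3, n4, n5⟩ := F.st.exists_new hrp htp hrq htq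
  have R : Rel p q r t Ua Ub Uc Ud Va Vb Vc Vd B Ua' Ub' Vc' Vd' B' := ⟨n1, n2, n3, n4, n5⟩
  have E := e1 F.st N R
  have E' : B * (X * Ub' * Va) + B' * (Ub * Vb) = X * (Va * Vb) ^ 2 * C (2 * q - r - t) +
      (Uc * Ud) ^ 2 * C (q - p) := by
    rw [E]
    simp only [map_sub, map_mul, map_ofNat]
  have hη : (X * (Va * Vb) ^ 2).natDegree = 1 + 2 * (Va.natDegree + Vb.natDegree) := by
    rw [natDegree_mul X_ne_zero (pow_ne_zero 2 (mul_ne_zero va0 vb0)), natDegree_X, natDegree_pow,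
      natDegree_mul va0 vb0]
  have hγ : ((Uc * Ud) ^ 2).natDegree = 2 * (uc + ud) := by
    rw [natDegree_pow, natDegree_mul uc0 ud0, F.dUc, F.dUd]
  have cη : (X * (Va * Vb) ^ 2).coeff (1 + 2 * (Va.natDegree + Vb.natDegree)) ≠ 0 := by
    rw [← hη, coeff_natDegree, leadingCoeff_ne_zero]
    exact mul_ne_zero X_ne_zero (pow_ne_zero 2 (mul_ne_zero va0 vb0))
  have cγ : ((Uc * Ud) ^ 2).coeff (2 * (uc + ud)) ≠ 0 := by
    rw [← hγ, coeff_natDegree, leadingCoeff_ne_zero]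
    exact pow_ne_zero 2 (mul_ne_zero uc0 ud0)
  obtain ⟨hUb, cUb⟩ := lin_deg F.hA F.dB F.st.h1 F.cA
  have hB := F.lcB
  -- the common conclusion
  have main : ∃ n, B' ≠ 0 ∧ B'.natDegree + d = n ∧ (X * Ub' * Va).natDegree ≤ B'.natDegree ∧
      (X * Ub' * Va).coeff B'.natDegree = (q - z') * B'.coeff B'.natDegree ∧
      ((ua + ub + uc + ud = 2 * d ∧ n = 2 * (uc + ud)) ∨
        (ua + ub + uc + ud + 1 = 2 * d ∧ n = 2 * (uc + ud) + 1)) := by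
    rcases hz with ⟨hs, rfl⟩ | ⟨hs, rfl⟩
    · have hc : (X * (Va * Vb) ^ 2).coeff (2 * (uc + ud)) = 0 :=
        coeff_eq_zero_of_natDegree_lt (by omega)
      obtain ⟨a1, a2, a3, a4, a5⟩ := asy n5 E' (n := 2 * (uc + ud)) (by omega) hγ.le
        (by rw [hc, zero_add]; exact cγ) F.dB F.b0 hUb
      refine ⟨_, a1, a2, a3, ?_, Or.inl ⟨hs, rfl⟩⟩
      rw [hc, zero_add] at a4
      rw [hc, zero_mul, zero_add, cUb, ← a4] at a5
      refine mul_left_cancel₀ hB ?_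
      linear_combination a5
    · have hc : ((Uc * Ud) ^ 2).coeff (2 * (uc + ud) + 1) = 0 :=
        coeff_eq_zero_of_natDegree_lt (by omega)
      have hn : 1 + 2 * (Va.natDegree + Vb.natDegree) = 2 * (uc + ud) + 1 := by omega
      rw [hn] at hη cη
      obtain ⟨a1, a2, a3, a4, a5⟩ := asy n5 E' (n := 2 * (uc + ud) + 1) hη.le (by omega)
        (by rw [hc, add_zero]; exact cη) F.dB F.b0 hUb
      refine ⟨_, a1, a2, a3, ?_, Or.inr ⟨hs, rfl⟩⟩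
      rw [hc, add_zero] at a4
      rw [hc, zero_mul, add_zero, cUb, ← a4] at a5
      refine mul_left_cancel₀ hB ?_
      linear_combination a5
  obtain ⟨n, hB', hd', hA', cA', hn⟩ := main
  have S' := F.st.new N R hB' hrp htp hrq htq hne
  have al' := F.al.new F.st N R hB'
  have hlc : B'.coeff B'.natDegree ≠ 0 := by
    rw [coeff_natDegree, leadingCoeff_ne_zero]; exact hB'
  obtain ⟨k1, k2, k3⟩ := prod_deg hA' (by
    rw [cA']; exact mul_ne_zero (sub_ne_zero.2 zq.symm) hlc)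
  have k4 : Ub' ≠ 0 := right_ne_zero_of_mul k1
  rw [natDegree_mul X_ne_zero k4, natDegree_X] at k3
  obtain ⟨l1, l2⟩ := lin_deg hA' rfl S'.h1 cA'
  obtain ⟨l3, l4, l5⟩ := prod_deg l1 (by
    rw [l2]; exact mul_ne_zero (sub_ne_zero.2 zp.symm) hlc)
  refine ⟨B'.natDegree, Ua'.natDegree, Ub'.natDegree,
    ⟨Ub', Ua', Ud, Uc, Va, Vb, Vc', Vd', B', ⟨S', al', hB', rfl, rfl, rfl, F.dUd, F.dUc, hA', cA',
      zq, zp, zr, zt⟩⟩, by omega, by omega, ?_⟩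
  rcases hn with ⟨h1, h2⟩ | ⟨h1, h2⟩
  · exact Or.inl ⟨h1, by omega⟩
  · exact Or.inr ⟨h1, by omega⟩

end Pool.Agent.H43.HL
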