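import Pool.Agent.H43.HL.Full

set_option autoImplicit false

/-!
# Sections indexed by the points of a lattice
-/

open Polynomial

namespace Pool.Agent.H43.HL

/-- value of `s` at infinity -/
def zv (p a b c : ℚ) (x y w e : ℤ) : ℚ :=
  (1 - e) * (p + x * a + y * b + w * c) + e * (p - ((x - 1) * a + (y - 1) * b + (w - 1) * c))

/-- there is a section at the point `(x, y, w)` -/
def Gd (p a b c : ℚ) (x y w e : ℤ) : Prop :=
  ∃ d ua ub uc ud : ℕ, FullE p (p + b + c) (p + a + c) (p + a + b) (zv p a b c x y w e) d ua ub uc ud ∧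
    2 * (d : ℤ) = x * (x - 1) + y * (y - 1) + w * (w - 1) ∧
    4 * (ua : ℤ) = x ^ 2 + y ^ 2 + w ^ 2 - 4 + e ∧
    4 * (ub : ℤ) = x ^ 2 + (y - 1) ^ 2 + (w - 1) ^ 2 - 2 + e ∧
    4 * (uc : ℤ) = (x - 1) ^ 2 + y ^ 2 + (w - 1) ^ 2 - 2 + e ∧
    4 * (ud : ℤ) = (x - 1) ^ 2 + (y - 1) ^ 2 + w ^ 2 - 2 + e

theorem Gd.swap {p a b c : ℚ} {x y w e : ℤ} (he : e = 0 ∨ e = 1) (G : Gd p a b c x y w e) :
    Gd p a b c (1 - x) (1 - y) (1 - w) (1 - e) := by
  obtain ⟨d, ua, ub, uc, ud, F, h0, h1, h2, h3, h4⟩ := G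
  obtain ⟨va, vb, vc, vd, F', g1, g2, g3, g4⟩ := F.swap
  have hz : zv p a b c x y w e = zv p a b c (1 - x) (1 - y) (1 - w) (1 - e) := by
    rcases he with rfl | rfl
    · simp only [zv]; push_cast; ring
    · simp only [zv]; push_cast; ring
  rw [hz] at F'
  have g1' : (1 : ℤ) + ua + va = d := by exact_mod_cast g1
  have g2' : (ub : ℤ) + vb = d := by exact_mod_cast g2
  have g3' : (uc : ℤ) + vc = d := by exact_mod_cast g3
  have g4' : (ud : ℤ) + vd = d := by exact_mod_cast g4
  refine ⟨d, va, vb, vc, vd, F', ?_, ?_, ?_, ?_, ?_⟩ <;> linarith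

theorem Gd.permBC {p a b c : ℚ} {x y w e : ℤ} (G : Gd p a b c x y w e) :
    Gd p b a c y x w e := by
  obtain ⟨d, ua, ub, uc, ud, F, h0, h1, h2, h3, h4⟩ := G
  have F' := F.permBC
  have hz : zv p a b c x y w e = zv p b a c y x w e := by
    simp only [zv]; ring
  rw [hz, add_right_comm p a b] at F'
  have : p + b + a = p + a + b := by ring
  refine ⟨d, ua, uc, ub, ud, ?_, ?_, ?_, ?_, ?_, ?_⟩
  · simpa only [this, add_right_comm p b a] using F'
  all_goals linarith

theorem Gd.permBD {p a b c : ℚ} {x y w e : ℤ} (G : Gd p a b c x y w e) :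
    Gd p c b a w y x e := by
  obtain ⟨d, ua, ub, uc, ud, F, h0, h1, h2, h3, h4⟩ := G
  have F' := F.permBD
  have hz : zv p a b c x y w e = zv p c b a w y x e := by
    simp only [zv]; ring
  rw [hz] at F'
  have e1 : p + b + a = p + a + b := by ring
  have e2 : p + c + a = p + a + c := by ring
  have e3 : p + c + b = p + b + c := by ring
  refine ⟨d, ua, ud, uc, ub, ?_, ?_, ?_, ?_, ?_, ?_⟩
  · rw [e1, e2, e3]; exact F'
  all_goals linarith

theorem Gd.step {p a b c : ℚ} {x y w e : ℤ} (he : e = 0 ∨ e = 1) (G : Gd p a b c x y w e)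
    (ha : a ≠ 0) (hab : a ≠ b) (hac : a ≠ c) (hab' : a + b ≠ 0)
    (hac' : a + c ≠ 0)
    (k1 : zv (p + b + c) a (-c) (-b) (2 - x) w y e ≠ p)
    (k2 : zv (p + b + c) a (-c) (-b) (2 - x) w y e ≠ p + b + c)
    (k3 : zv (p + b + c) a (-c) (-b) (2 - x) w y e ≠ p + a + c)
    (k4 : zv (p + b + c) a (-c) (-b) (2 - x) w y e ≠ p + a + b) :
    Gd (p + b + c) a (-c) (-b) (2 - x) w y e := by
  obtain ⟨d, ua, ub, uc, ud, F, h0, h1, h2, h3, h4⟩ := G
  have hz : (ua + ub + uc + ud = 2 * d ∧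
        zv (p + b + c) a (-c) (-b) (2 - x) w y e = p + (p + b + c) - zv p a b c x y w e) ∨
      (ua + ub + uc + ud + 1 = 2 * d ∧
        zv (p + b + c) a (-c) (-b) (2 - x) w y e = (p + a + c) + (p + a + b) -
          zv p a b c x y w e) := by
    rcases he with rfl | rfl
    · refine Or.inr ⟨?_, ?_⟩
      · have : (ua + ub + uc + ud + 1 : ℤ) = 2 * d := by linarith
        exact_mod_cast this
      · simp only [zv]; push_cast; ring
    · refine Or.inl ⟨?_, ?_⟩
      · have : (ua + ub + uc + ud : ℤ) = 2 * d := by linarith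
        exact_mod_cast this
      · simp only [zv]; push_cast; ring
  obtain ⟨d', ua', ub', F', g1, g2, g3⟩ := F.new (z' := zv (p + b + c) a (-c) (-b) (2 - x) w y e)
    (fun h => hac' (by linarith)) (fun h => hab' (by linarith)) (fun h => hab (by linarith))
    (fun h => hac (by linarith)) (fun h => ha (by linarith)) hz k1 k2 k3 k4
  have q1 : p + b + c + -c + -b = p := by ring
  have q2 : p + b + c + a + -b = p + a + c := by ring
  have q3 : p + b + c + a + -c = p + a + b := by ring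
  have g1' : (ub' : ℤ) + d = d' + ua := by exact_mod_cast g1
  have g2' : (ua' : ℤ) + d = d' + ub := by exact_mod_cast g2
  have g3' : (d' : ℤ) + d = 2 * (uc + ud) + 1 - e := by
    rcases he with rfl | rfl
    · rcases g3 with ⟨g3, g4⟩ | ⟨g3, g4⟩
      · exfalso
        have : (ua + ub + uc + ud + 1 : ℤ) = 2 * d := by linarith
        have : ua + ub + uc + ud + 1 = 2 * d := by exact_mod_cast this
        omega
      · have : (d' + d : ℤ) = 2 * (uc + ud) + 1 := by exact_mod_cast g4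
        linarith
    · rcases g3 with ⟨g3, g4⟩ | ⟨g3, g4⟩
      · have : (d' + d : ℤ) = 2 * (uc + ud) := by exact_mod_cast g4
        linarith
      · exfalso
        have : (ua + ub + uc + ud : ℤ) = 2 * d := by linarith
        have : ua + ub + uc + ud = 2 * d := by exact_mod_cast this
        omega
  refine ⟨d', ub', ua', ud, uc, ?_, ?_, ?_, ?_, ?_, ?_⟩
  · rw [q1, q2, q3]; exact F'
  · linarith
  · linarith
  · linarith
  · linarith
  · linarith

end Pool.Agent.H43.HL
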