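import Pool.Agent.H43.HL.Step

set_option autoImplicit false

/-!
# The new section
-/

open Polynomial

namespace Pool.Agent.H43.HL

variable {p q r t : ℚ} {Ua Ub Uc Ud Va Vb Vc Vd B Ua' Ub' Vc' Vd' B' : ℚ[X]}

/-- the relations between a section and its image under the involution -/
structure Rel (p q r t : ℚ) (Ua Ub Uc Ud Va Vb Vc Vd B Ua' Ub' Vc' Vd' B' : ℚ[X]) : Prop where
  n1 : (C p - C r) * (C p - C t) * (Va * Vb) - 2 * (Uc * Ud) = Ua * Ua'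
  n2 : (C q - C r) * (C q - C t) * (Va * Vb) - 2 * (Uc * Ud) = Ub * Ub'
  n3 : (C r - C p) * (C r - C q) * (Uc * Ud) - 2 * (X * (Va * Vb)) = Vc * Vc'
  n4 : (C t - C p) * (C t - C q) * (Uc * Ud) - 2 * (X * (Va * Vb)) = Vd * Vd'
  n5 : X * (Va * Vb) ^ 2 + (Uc * Ud) ^ 2 = B * B'

/-- nothing vanishes -/
structure NZ (Ua Ub Uc Ud Va Vb Vc Vd B : ℚ[X]) : Prop where
  ua : Ua ≠ 0
  ub : Ub ≠ 0
  uc : Uc ≠ 0
  ud : Ud ≠ 0
  va : Va ≠ 0
  vb : Vb ≠ 0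
  vc : Vc ≠ 0
  vd : Vd ≠ 0
  b : B ≠ 0

theorem e1 (S : St p q r t Ua Ub Uc Ud Va Vb Vc Vd B) (N : NZ Ua Ub Uc Ud Va Vb Vc Vd B)
    (R : Rel p q r t Ua Ub Uc Ud Va Vb Vc Vd B Ua' Ub' Vc' Vd' B') :
    B * (X * Ub' * Va) + B' * (Ub * Vb) =
      X * (Va * Vb) ^ 2 * (2 * C q - C r - C t) + (Uc * Ud) ^ 2 * (C q - C p) := by
  have h1 := S.h1
  have h2 := S.h2
  have h3 := S.h3
  have h4 := S.h4
  have n2 := R.n2
  have n5 := R.n5
  have key : (Uc * Ud) ^ 2 * ((X * Ua * Va) * (Ub * Vb)) +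
      X * (Va * Vb) ^ 2 * ((Uc * Vc) * (Ud * Vd)) =
      2 * X * (Uc * Ud) * (Va * Vb) * B ^ 2 := by
    linear_combination X * (Uc * Ud) * (Va * Vb) * h4
  refine mul_left_cancel₀ (mul_ne_zero (mul_ne_zero N.ub N.vb) N.b) ?_
  linear_combination key - B ^ 2 * X * (Va * Vb) * n2 - (Ub * Vb) ^ 2 * n5 +
    (Uc * Ud) ^ 2 * (Ub * Vb) * h1 - X * (Va * Vb) ^ 2 * (Ud * Vd) * (h2 - h1) -
    X * (Va * Vb) ^ 2 * (Ub * Vb + (C r - C q) * B) * (h3 - h1)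

theorem i1 (S : St p q r t Ua Ub Uc Ud Va Vb Vc Vd B) (N : NZ Ua Ub Uc Ud Va Vb Vc Vd B)
    (R : Rel p q r t Ua Ub Uc Ud Va Vb Vc Vd B Ua' Ub' Vc' Vd' B') :
    Ua' * Vb = X * Ub' * Va + (C p - C q) * B' := by
  have h1 := S.h1
  have n1 := R.n1
  have n2 := R.n2
  have n5 := R.n5
  have e := e1 S N R
  refine mul_left_cancel₀ (mul_ne_zero (mul_ne_zero X_ne_zero N.ua) N.va) ?_
  linear_combination -(X * Va * Vb) * n1 + (X * Ub' * Va + (C p - C q) * B') * h1 +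
    X * Va * Vb * n2 - (C p - C q) * e + (C p - C q) ^ 2 * n5

theorem i2 (S : St p q r t Ua Ub Uc Ud Va Vb Vc Vd B) (N : NZ Ua Ub Uc Ud Va Vb Vc Vd B)
    (R : Rel p q r t Ua Ub Uc Ud Va Vb Vc Vd B Ua' Ub' Vc' Vd' B') :
    Ud * Vc' = X * Ub' * Va + (C r - C q) * B' := by
  have h1 := S.h1
  have h2 := S.h2
  have n2 := R.n2
  have n3 := R.n3
  have n5 := R.n5
  have e := e1 S N R
  refine mul_left_cancel₀ (mul_ne_zero N.uc N.vc) ?_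
  linear_combination -(Uc * Ud) * n3 - (X * Ub' * Va + (C r - C q) * B') * (h2 - h1) +
    X * Va * Vb * n2 - (C r - C q) * e + (C r - C q) ^ 2 * n5

theorem i3 (S : St p q r t Ua Ub Uc Ud Va Vb Vc Vd B) (N : NZ Ua Ub Uc Ud Va Vb Vc Vd B)
    (R : Rel p q r t Ua Ub Uc Ud Va Vb Vc Vd B Ua' Ub' Vc' Vd' B') :
    Uc * Vd' = X * Ub' * Va + (C t - C q) * B' := by
  have h1 := S.h1
  have h3 := S.h3
  have n2 := R.n2
  have n4 := R.n4
  have n5 := R.n5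
  have e := e1 S N R
  refine mul_left_cancel₀ (mul_ne_zero N.ud N.vd) ?_
  linear_combination -(Uc * Ud) * n4 - (X * Ub' * Va + (C t - C q) * B') * (h3 - h1) +
    X * Va * Vb * n2 - (C t - C q) * e + (C t - C q) ^ 2 * n5

theorem i4 (S : St p q r t Ua Ub Uc Ud Va Vb Vc Vd B) (N : NZ Ua Ub Uc Ud Va Vb Vc Vd B)
    (R : Rel p q r t Ua Ub Uc Ud Va Vb Vc Vd B Ua' Ub' Vc' Vd' B') :
    Ub' * Ua' * Ud * Uc + Va * Vb * Vc' * Vd' = 2 * B' ^ 2 := by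
  have n2 := R.n2
  have n5 := R.n5
  have e := e1 S N R
  have a1 := i1 S N R
  have a2 := i2 S N R
  have a3 := i3 S N R
  refine mul_left_cancel₀ (mul_ne_zero (mul_ne_zero X_ne_zero (mul_ne_zero N.uc N.ud))
    (mul_ne_zero N.va N.vb)) ?_
  linear_combination (Uc * Ud) ^ 2 * (X * Ub' * Va) * a1 + X * (Va * Vb) ^ 2 *
    ((Uc * Vd') * a2 + (X * Ub' * Va + (C r - C q) * B') * a3) + (X * Ub' * Va) ^ 2 * n5 +
    (X * Ub' * Va) * B' * e + B' ^ 2 * (X * Va * Vb) * n2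

theorem i5 (S : St p q r t Ua Ub Uc Ud Va Vb Vc Vd B) (N : NZ Ua Ub Uc Ud Va Vb Vc Vd B)
    (R : Rel p q r t Ua Ub Uc Ud Va Vb Vc Vd B Ua' Ub' Vc' Vd' B') (hB' : B' ≠ 0)
    (hrp : r ≠ p) (htp : t ≠ p) (hrq : r ≠ q) (htq : t ≠ q) (hne : p + q ≠ r + t) :
    IsCoprime (X * Ub' * Va) B' := by
  have e := e1 S N R
  refine isCoprime_of_prime_dvd (fun h => hB' h.2) fun z hz h1 h2 => ?_
  have h3 : z ∣ X * (Va * Vb) ^ 2 + (Uc * Ud) ^ 2 := R.n5 ▸ h2.mul_left B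
  have h4 : z ∣ X * (Va * Vb) ^ 2 * (2 * C q - C r - C t) + (Uc * Ud) ^ 2 * (C q - C p) := by
    rw [← e]
    exact dvd_add (h1.mul_left _) (h2.mul_right _)
  have hu : IsUnit (C p + C q - (C r + C t) : ℚ[X]) := by
    rw [← map_add, ← map_add]
    exact isUnit_C_sub hne
  have h5 : z ∣ X * (Va * Vb) ^ 2 * (C p + C q - (C r + C t)) := by
    have h6 := dvd_sub h4 (h3.mul_right (C q - C p))
    convert h6 using 1
    ring
  have h6 : z ∣ X * (Va * Vb) ^ 2 := (hu.dvd_mul_right).1 h5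
  have h7 : z ∣ Uc * Ud := by
    have h8 := (dvd_add_right h6).1 h3
    exact hz.dvd_of_dvd_pow h8
  have h8 : z ∣ X * Ua * Va ∨ z ∣ Ub * Vb := by
    rcases hz.dvd_or_dvd h6 with h | h
    · exact Or.inl (by rw [mul_assoc]; exact h.mul_right _)
    · rcases hz.dvd_or_dvd (hz.dvd_of_dvd_pow h) with h | h
      · exact Or.inl (h.mul_left _)
      · exact Or.inr (h.mul_left _)
  rcases hz.dvd_or_dvd h7 with h | h <;> rcases h8 with h' | h'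
  · exact hz.not_isUnit ((S.ac hrp).isUnit_of_dvd' h' (h.mul_right _))
  · exact hz.not_isUnit ((S.bc hrq).isUnit_of_dvd' h' (h.mul_right _))
  · exact hz.not_isUnit ((S.ad htp).isUnit_of_dvd' h' (h.mul_right _))
  · exact hz.not_isUnit ((S.bd htq).isUnit_of_dvd' h' (h.mul_right _))

/-- the involution applied to a section -/
theorem St.new (S : St p q r t Ua Ub Uc Ud Va Vb Vc Vd B) (N : NZ Ua Ub Uc Ud Va Vb Vc Vd B)
    (R : Rel p q r t Ua Ub Uc Ud Va Vb Vc Vd B Ua' Ub' Vc' Vd' B') (hB' : B' ≠ 0)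
    (hrp : r ≠ p) (htp : t ≠ p) (hrq : r ≠ q) (htq : t ≠ q) (hne : p + q ≠ r + t) :
    St q p r t Ub' Ua' Ud Uc Va Vb Vc' Vd' B' where
  h1 := i1 S N R
  h2 := i2 S N R
  h3 := i3 S N R
  h4 := i4 S N R
  cop := i5 S N R hB' hrp htp hrq htq hne

end Pool.Agent.H43.HL
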