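import Mathlib
import Pool.Graph.R_seed8.H591R2.ThreeSq

set_option autoImplicit false

namespace Pool.Agent.H43.HL

theorem odd_sq_form {u : ℤ} (hu : u % 2 = 1) : ∃ X : ℤ, u ^ 2 = 8 * (X * (2 * X - 1)) + 1 := by
  rcases (by omega : u % 4 = 1 ∨ u % 4 = 3) with h | h
  · obtain ⟨k, hk⟩ : ∃ k, u = 4 * k + 1 := ⟨u / 4, by omega⟩
    exact ⟨-k, by subst hk; ring⟩
  · obtain ⟨k, hk⟩ : ∃ k, u = 4 * k - 1 := ⟨u / 4 + 1, by omega⟩
    exact ⟨k, by subst hk; ring⟩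

/-- Gauss: every natural number is a sum of three triangular numbers -/
theorem three_triangular (d : ℕ) (hd : 1 ≤ d) : ∃ X Y W : ℤ, X ≠ 0 ∧
    (d : ℤ) = X * (2 * X - 1) + Y * (2 * Y - 1) + W * (2 * W - 1) := by
  obtain ⟨u, v, s, h⟩ := Pool.Agent.H591R2.three_squares (m := 8 * d + 3) (by omega)
  push_cast at h
  have sq4 : ∀ a : ℤ, (a % 2 = 0 ∧ (a ^ 2 % 8 = 0 ∨ a ^ 2 % 8 = 4)) ∨
      (a % 2 = 1 ∧ a ^ 2 % 8 = 1) := by
    intro a
    rcases (by omega : a % 4 = 0 ∨ a % 4 = 1 ∨ a % 4 = 2 ∨ a % 4 = 3) with h | h | h | h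
    · obtain ⟨k, hk⟩ : ∃ k, a = 4 * k := ⟨a / 4, by omega⟩
      left; refine ⟨by omega, Or.inl ?_⟩
      subst hk; ring_nf; omega
    · obtain ⟨k, hk⟩ : ∃ k, a = 4 * k + 1 := ⟨a / 4, by omega⟩
      right; refine ⟨by omega, ?_⟩
      subst hk; ring_nf; omega
    · obtain ⟨k, hk⟩ : ∃ k, a = 4 * k + 2 := ⟨a / 4, by omega⟩
      left; refine ⟨by omega, Or.inr ?_⟩
      subst hk; ring_nf; omega
    · obtain ⟨k, hk⟩ : ∃ k, a = 4 * k + 3 := ⟨a / 4, by omega⟩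
      right; refine ⟨by omega, ?_⟩
      subst hk; ring_nf; omega
  have hu := sq4 u
  have hv := sq4 v
  have hs := sq4 s
  obtain ⟨X, hX⟩ := odd_sq_form (u := u) (by omega)
  obtain ⟨Y, hY⟩ := odd_sq_form (u := v) (by omega)
  obtain ⟨W, hW⟩ := odd_sq_form (u := s) (by omega)
  have e : (d : ℤ) = X * (2 * X - 1) + Y * (2 * Y - 1) + W * (2 * W - 1) := by linarith
  by_cases h1 : X = 0
  · by_cases h2 : Y = 0
    · refine ⟨W, X, Y, ?_, by linarith⟩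
      rintro rfl
      subst h1 h2
      norm_num at e
      omega
    · exact ⟨Y, X, W, h2, by linarith⟩
  · exact ⟨X, Y, W, h1, e⟩

end Pool.Agent.H43.HL
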