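import Pool.Agent.H43.HL.Base
import Pool.Agent.H43.HL.Tri

set_option autoImplicit false

/-!
# The pencils
-/

open Polynomial

namespace Pool.Agent.H43.HL

theorem ind_pow (N : ℤ) (hN : 0 ≤ N) (K : ℤ) (hK : N < K) : Ind 1 (K : ℚ) ((K : ℚ) ^ 2) N := by
  intro i j k hi hj hk h
  have hi' := abs_le.1 hi
  have hj' := abs_le.1 hj
  have hk' := abs_le.1 hk
  have h1 : i + j * K + k * K ^ 2 = 0 := by
    have : ((i + j * K + k * K ^ 2 : ℤ) : ℚ) = 0 := by push_cast; linarith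
    exact_mod_cast this
  have key : ∀ u v : ℤ, -N ≤ u → u ≤ N → u + v * K = 0 → u = 0 := by
    intro u v hu1 hu2 huv
    have hd : K ∣ u := ⟨-v, by linarith⟩
    obtain ⟨w, hw⟩ := hd
    rcases lt_trichotomy w 0 with h | h | h
    · have : K * w ≤ K * (-1) := mul_le_mul_of_nonneg_left (by omega) (by omega)
      linarith
    · rw [hw, h, mul_zero]
    · have : K * 1 ≤ K * w := mul_le_mul_of_nonneg_left (by omega) (by omega)
      linarith
  have hi0 : i = 0 := key i (j + k * K) hi'.1 hi'.2 (by linarith)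
  subst hi0
  have hK0 : K ≠ 0 := by omega
  have h2 : j + k * K = 0 := by
    have : K * (j + k * K) = 0 := by linarith
    rcases mul_eq_zero.1 this with h | h
    · exact absurd h hK0
    · exact h
  have hj0 : j = 0 := key j k hj'.1 hj'.2 h2
  subst hj0
  refine ⟨rfl, rfl, ?_⟩
  rcases mul_eq_zero.1 (by linarith : k * K = 0) with h | h
  · exact h
  · exact absurd h hK0

theorem family (d : ℕ) (hd : 1 ≤ d) : ∃ (q r t : ℤ) (A B : ℚ[X]) (c : ℚ) (Y : ℚ[X]),
    IsCoprime A B ∧ B.natDegree = d ∧ A.natDegree ≤ d ∧ c ≠ 0 ∧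
    A.comp (quart 0 q r t) + X * B.comp (quart 0 q r t) = C c * X * Y ^ 2 := by
  obtain ⟨x, y, w, hx, hxyw⟩ := three_triangular d hd
  set N : ℤ := |x| + |y| + |w| with hN
  have hxN : |x| ≤ N := by have := abs_nonneg y; have := abs_nonneg w; linarith
  have hyN : |y| ≤ N := by have := abs_nonneg x; have := abs_nonneg w; linarith
  have hwN : |w| ≤ N := by have := abs_nonneg x; have := abs_nonneg y; linarith
  have hN1 : 1 ≤ N := le_trans (Int.one_le_abs hx) hxN
  set K : ℤ := 2 * N + 4 with hK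
  have I := ind_pow (2 * N + 3) (by omega) K (by omega)
  have hK1 : (6 : ℚ) ≤ K := by exact_mod_cast (by omega : (6 : ℤ) ≤ K)
  have hb := base 0 1 (K : ℚ) ((K : ℚ) ^ 2) (((K : ℚ) - 1) * ((K : ℚ) ^ 2 - 1) / 2) (by ring)
    one_ne_zero (by intro h; linarith) (by intro h; nlinarith) (by intro h; nlinarith)
  have E := Ev.reach I hN1 hb x y w hxN hyN hwN hx
  obtain ⟨d', ua, ub, uc, ud, ⟨Ua, Ub, Uc, Ud, Va, Vb, Vc, Vd, B, F⟩, h0, -⟩ := E
  have hdd : d' = d := by
    have : (d' : ℤ) = d := by linarith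
    exact_mod_cast this
  subst hdd
  obtain ⟨c, hc, Y, hY, hal⟩ := F.al
  refine ⟨K + K ^ 2, 1 + K ^ 2, 1 + K, X * Ua * Va, B, c, Y, F.st.cop, F.dB, F.hA, hc, ?_⟩
  have e1 : ((K + K ^ 2 : ℤ) : ℚ) = 0 + (K : ℚ) + (K : ℚ) ^ 2 := by push_cast; ring
  have e2 : ((1 + K ^ 2 : ℤ) : ℚ) = 0 + 1 + (K : ℚ) ^ 2 := by push_cast; ring
  have e3 : ((1 + K : ℤ) : ℚ) = 0 + 1 + (K : ℚ) := by push_cast; ring
  rw [e1, e2, e3]
  simpa only [al, map_zero, sub_zero] using hal

theorem bad_finite {A B : ℚ[X]} (h : IsCoprime A B) (hB : B.natDegree ≠ 0) :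
    {T : ℚ | ¬ (A + C T * B).Separable}.Finite := by
  classical
  set W := derivative A * B - A * derivative B with hW
  have hB0 : B ≠ 0 := by rintro rfl; simp at hB
  have hW0 : W ≠ 0 := by
    intro h0
    have h1 : B ∣ A * derivative B := ⟨derivative A, by linear_combination -h0⟩
    have h2 : B ∣ derivative B := h.symm.dvd_of_dvd_mul_left h1
    have h3 : derivative B = 0 := by
      by_contra h4
      have := natDegree_le_of_dvd h2 h4
      have := natDegree_derivative_lt hB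
      omega
    exact hB (derivative_eq_zero.1 h3)
  have hsub : {T : ℚ | ¬ (A + C T * B).Separable} ⊆
      ⋃ z ∈ ((UniqueFactorizationMonoid.normalizedFactors W).toFinset : Set ℚ[X]),
        {T : ℚ | z ∣ A + C T * B} := by
    intro T hT
    rw [Set.mem_ofPred_eq, Polynomial.Separable] at hT
    have hne : ¬ (A + C T * B = 0 ∧ derivative (A + C T * B) = 0) := by
      rintro ⟨h1, -⟩
      have h2 : A = -C T * B := by linear_combination h1
      have h3 : IsUnit B := h.isUnit_of_dvd' (h2 ▸ dvd_mul_left _ _) dvd_rfl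
      exact hB (natDegree_eq_zero_of_isUnit h3)
    have hex : ∃ z, Prime z ∧ z ∣ A + C T * B ∧ z ∣ derivative (A + C T * B) := by
      by_contra hcon
      push Not at hcon
      exact hT (isCoprime_of_prime_dvd hne fun z hz h1 h2 => hcon z hz h1 h2)
    obtain ⟨z, hz, h1, h2⟩ := hex
    have h3 : z ∣ W := by
      have : W = derivative (A + C T * B) * B - (A + C T * B) * derivative B := by
        rw [hW]
        simp only [derivative_add, derivative_mul, derivative_C, zero_mul, zero_add]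
        ring
      rw [this]
      exact dvd_sub (h2.mul_right _) (h1.mul_right _)
    obtain ⟨z', hz', hass⟩ := UniqueFactorizationMonoid.exists_mem_normalizedFactors_of_dvd hW0
      hz.irreducible h3
    rw [Set.mem_iUnion₂]
    exact ⟨z', Finset.mem_coe.2 (Multiset.mem_toFinset.2 hz'), hass.symm.dvd.trans h1⟩
  refine Set.Finite.subset (Set.Finite.biUnion (Finset.finite_toSet _) ?_) hsub
  intro z hz
  refine Set.Subsingleton.finite ?_
  intro T hT T' hT'
  have hz1 : z ∈ UniqueFactorizationMonoid.normalizedFactors W :=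
    Multiset.mem_toFinset.1 (Finset.mem_coe.1 hz)
  have hzp := UniqueFactorizationMonoid.prime_of_normalized_factor z hz1
  rw [Set.mem_ofPred_eq] at hT hT'
  by_contra hne
  have h1 : z ∣ C (T - T') * B := by
    have := dvd_sub hT hT'
    convert this using 1
    rw [C_sub]; ring
  have hu : IsUnit (C (T - T') : ℚ[X]) := isUnit_C.2 (isUnit_iff_ne_zero.2 (sub_ne_zero.2 hne))
  have h2 : z ∣ B := hu.dvd_mul_left.1 h1
  have h3 : z ∣ A := (dvd_add_left (h2.mul_left _)).1 hT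
  exact hzp.not_isUnit (h.isUnit_of_dvd' h3 h2)

theorem rat_sq {ρ : ℚ} {n : ℤ} (h : ρ ^ 2 = n) : ∃ y : ℤ, y ^ 2 = n := by
  have h1 : IsIntegral ℤ (ρ ^ 2) := by
    rw [h]; exact isIntegral_algebraMap (R := ℤ) (A := ℚ) (x := n)
  obtain ⟨y, hy⟩ := IsIntegrallyClosed.exists_algebraMap_eq_of_isIntegral_pow (R := ℤ) (K := ℚ)
    two_pos h1
  refine ⟨y, ?_⟩
  have h2 : ((y : ℚ)) ^ 2 = n := by
    rw [← h, ← hy]; rfl
  exact_mod_cast h2

theorem pencil (d : ℕ) (hd : 1 ≤ d) : ∃ A B : ℤ[X],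
    IsCoprime (A.map (Int.castRingHom ℚ)) (B.map (Int.castRingHom ℚ)) ∧ A.natDegree ≤ d ∧
    B.natDegree = d ∧ ∃ q r t κ : ℤ, κ ≠ 0 ∧ ∀ m : ℤ, ∃ y : ℤ,
      y ^ 2 = (A + C (κ * m ^ 2) * B).eval
        (κ * m ^ 2 * (κ * m ^ 2 - q) * ((κ * m ^ 2 - r) * (κ * m ^ 2 - t))) := by
  obtain ⟨q, r, t, A, B, c, Y, hcop, hB, hA, hc, h⟩ := family d hd
  obtain ⟨β1, hb1m, hb1⟩ := IsLocalization.integerNormalization_spec (nonZeroDivisors ℤ) A
  obtain ⟨β2, hb2m, hb2⟩ := IsLocalization.integerNormalization_spec (nonZeroDivisors ℤ) B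
  have hb1' : β1 ≠ 0 := nonZeroDivisors.ne_zero hb1m
  have hb2' : β2 ≠ 0 := nonZeroDivisors.ne_zero hb2m
  set A' := IsLocalization.integerNormalization (nonZeroDivisors ℤ) A
  set B' := IsLocalization.integerNormalization (nonZeroDivisors ℤ) B
  have e1 : A'.map (Int.castRingHom ℚ) = C (β1 : ℚ) * A := by
    have : A'.map (Int.castRingHom ℚ) = β1 • A := hb1
    rw [this, ← smul_eq_C_mul]
    exact (Int.cast_smul_eq_zsmul ℚ β1 A).symm
  have e2 : B'.map (Int.castRingHom ℚ) = C (β2 : ℚ) * B := by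
    have : B'.map (Int.castRingHom ℚ) = β2 • B := hb2
    rw [this, ← smul_eq_C_mul]
    exact (Int.cast_smul_eq_zsmul ℚ β2 B).symm
  have hβ1q : (β1 : ℚ) ≠ 0 := by exact_mod_cast hb1'
  have hβ2q : (β2 : ℚ) ≠ 0 := by exact_mod_cast hb2'
  -- the integral polynomials
  have eA : (C (β1 * β2 ^ 2) * A').map (Int.castRingHom ℚ) = C (((β1 * β2 : ℤ) : ℚ) ^ 2) * A := by
    rw [Polynomial.map_mul, map_C, e1]
    simp only [eq_intCast, Int.cast_mul, map_mul, map_pow]
    ring
  have eB : (C (β1 ^ 2 * β2) * B').map (Int.castRingHom ℚ) = C (((β1 * β2 : ℤ) : ℚ) ^ 2) * B := by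
    rw [Polynomial.map_mul, map_C, e2]
    simp only [eq_intCast, Int.cast_mul, map_mul, map_pow]
    ring
  have hβ : (((β1 * β2 : ℤ) : ℚ) ^ 2) ≠ 0 := by
    push_cast
    exact pow_ne_zero 2 (mul_ne_zero hβ1q hβ2q)
  have hu : IsUnit (C (((β1 * β2 : ℤ) : ℚ) ^ 2) : ℚ[X]) := isUnit_C.2 (isUnit_iff_ne_zero.2 hβ)
  have hinj : Function.Injective (Int.castRingHom ℚ) := Int.cast_injective
  refine ⟨C (β1 * β2 ^ 2) * A', C (β1 ^ 2 * β2) * B', ?_, ?_, ?_, q, r, t, c.num * c.den, ?_, ?_⟩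
  · rw [eA, eB]
    exact (isCoprime_mul_unit_left hu _ _).2 hcop
  · rw [← natDegree_map_eq_of_injective hinj, eA]
    exact (natDegree_C_mul_le _ _).trans hA
  · rw [← natDegree_map_eq_of_injective hinj, eB, natDegree_C_mul hβ, hB]
  · exact mul_ne_zero (Rat.num_ne_zero.2 hc) (by exact_mod_cast c.den_ne_zero)
  · intro m
    set T : ℤ := c.num * c.den * m ^ 2 with hT
    have hTq : (T : ℚ) = c * (c.den * m) ^ 2 := by
      have hcd : (c.num : ℚ) = c * c.den := (Rat.mul_den_eq_num c).symm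
      rw [hT]; push_cast
      rw [hcd]; ring
    refine rat_sq (ρ := ((β1 * β2 : ℤ) : ℚ) * c * (c.den * m) * Y.eval (T : ℚ)) ?_
    have h1 := congrArg (fun f => f.eval (T : ℚ)) h
    simp only [eval_add, eval_mul, eval_comp, eval_X, eval_C, eval_pow, quart, eval_sub,
      sub_zero] at h1
    have h2 : ((C (β1 * β2 ^ 2) * A' + C T * (C (β1 ^ 2 * β2) * B')).eval
        (T * (T - q) * ((T - r) * (T - t))) : ℤ) =
        (((β1 * β2 : ℤ) : ℚ) ^ 2) * (A.eval ((T : ℚ) * (T - q) * ((T - r) * (T - t))) +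
          T * B.eval ((T : ℚ) * (T - q) * ((T - r) * (T - t)))) := by
      have h3 := Polynomial.eval_intCast_map (Int.castRingHom ℚ)
        (C (β1 * β2 ^ 2) * A' + C T * (C (β1 ^ 2 * β2) * B')) (T * (T - q) * ((T - r) * (T - t)))
      refine Eq.trans (show _ = (Int.castRingHom ℚ) _ from rfl) (Eq.trans h3.symm ?_)
      rw [Polynomial.map_add, eA, Polynomial.map_mul, eB, map_C]
      simp only [eq_intCast, eval_add, eval_mul, eval_C, Int.cast_mul, Int.cast_sub]
      ring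
    rw [h2]
    rw [h1]
    generalize Y.eval (T : ℚ) = Yv
    rw [hTq]; ring

end Pool.Agent.H43.HL
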