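import Pool.Agent.H43.HL.Lattice

set_option autoImplicit false

/-!
# All lattice points are reached
-/

open Polynomial

namespace Pool.Agent.H43.HL

/-- `a`, `b`, `c` are independent up to size `R` -/
def Ind (a b c : ℚ) (R : ℤ) : Prop :=
  ∀ i j k : ℤ, |i| ≤ R → |j| ≤ R → |k| ≤ R → (i : ℚ) * a + j * b + k * c = 0 →
    i = 0 ∧ j = 0 ∧ k = 0

theorem Ind.bc {a b c : ℚ} {R : ℤ} (I : Ind a b c R) : Ind b a c R := by
  intro i j k hi hj hk h
  obtain ⟨h1, h2, h3⟩ := I j i k hj hi hk (by linear_combination h)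
  exact ⟨h2, h1, h3⟩

theorem Ind.bd {a b c : ℚ} {R : ℤ} (I : Ind a b c R) : Ind c b a R := by
  intro i j k hi hj hk h
  obtain ⟨h1, h2, h3⟩ := I k j i hk hj hi (by linear_combination h)
  exact ⟨h3, h2, h1⟩

theorem Ind.ne {a b c : ℚ} {R : ℤ} (I : Ind a b c R) (i j k : ℤ) (hi : |i| ≤ R) (hj : |j| ≤ R)
    (hk : |k| ≤ R) (h : ¬ (i = 0 ∧ j = 0 ∧ k = 0)) : (i : ℚ) * a + j * b + k * c ≠ 0 :=
  fun h' => h (I i j k hi hj hk h')

/-- even points -/
def Ev (p a b c : ℚ) (X Y W : ℤ) : Prop := Gd p a b c (2 * X) (2 * Y) (2 * W) 0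

theorem Ev.bc {p a b c : ℚ} {X Y W : ℤ} (E : Ev p a b c X Y W) : Ev p b a c Y X W := Gd.permBC E

theorem Ev.bd {p a b c : ℚ} {X Y W : ℤ} (E : Ev p a b c X Y W) : Ev p c b a W Y X := Gd.permBD E

theorem Gd.zne {p a b c : ℚ} {x y w e : ℤ} (G : Gd p a b c x y w e) :
    zv p a b c x y w e ≠ p := by
  obtain ⟨d, ua, ub, uc, ud, ⟨_, _, _, _, _, _, _, _, _, F⟩, _⟩ := G
  exact F.zp

theorem Gd.cast {p p' a b b' c c' : ℚ} {x x' y y' w w' e e' : ℤ} (G : Gd p a b c x y w e)
    (hp : p = p') (hb : b = b') (hc : c = c') (hx : x = x') (hy : y = y') (hw : w = w')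
    (he : e = e') : Gd p' a b' c' x' y' w' e' := by
  subst hp hb hc hx hy hw he; exact G

theorem Ev.plus {p a b c : ℚ} {X Y W R : ℤ} (I : Ind a b c R) (hX : |2 * X| + 3 ≤ R)
    (hY : |2 * Y| + 3 ≤ R) (hW : |2 * W| + 3 ≤ R) (hn : ¬ (X + 1 = 0 ∧ Y = 0 ∧ W = 0))
    (E : Ev p a b c X Y W) : Ev p a b c (X + 1) Y W := by
  have hX' := abs_le.1 (show |2 * X| ≤ R - 3 by linarith)
  have hY' := abs_le.1 (show |2 * Y| ≤ R - 3 by linarith)
  have hW' := abs_le.1 (show |2 * W| ≤ R - 3 by linarith)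
  have ha := I.ne 1 0 0 (abs_le.2 ⟨by omega, by omega⟩) (abs_le.2 ⟨by omega, by omega⟩)
    (abs_le.2 ⟨by omega, by omega⟩) (by omega)
  have hab := I.ne 1 (-1) 0 (abs_le.2 ⟨by omega, by omega⟩) (abs_le.2 ⟨by omega, by omega⟩)
    (abs_le.2 ⟨by omega, by omega⟩) (by omega)
  have hac := I.ne 1 0 (-1) (abs_le.2 ⟨by omega, by omega⟩) (abs_le.2 ⟨by omega, by omega⟩)
    (abs_le.2 ⟨by omega, by omega⟩) (by omega)
  have hab' := I.ne 1 1 0 (abs_le.2 ⟨by omega, by omega⟩) (abs_le.2 ⟨by omega, by omega⟩)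
    (abs_le.2 ⟨by omega, by omega⟩) (by omega)
  have hac' := I.ne 1 0 1 (abs_le.2 ⟨by omega, by omega⟩) (abs_le.2 ⟨by omega, by omega⟩)
    (abs_le.2 ⟨by omega, by omega⟩) (by omega)
  push_cast at ha hab hac hab' hac'
  have hz := Gd.zne E
  have G1 := Gd.swap (Or.inl rfl) E
  have G2 := G1.step (Or.inr rfl) (fun h => ha (by rw [h]; ring)) (fun h => hab (by rw [h]; ring))
    (fun h => hac (by rw [h]; ring)) (fun h => hab' (by linear_combination h))
    (fun h => hac' (by linear_combination h))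
    (fun h => I.ne (2 * X) (2 * Y - 1) (2 * W - 1) (abs_le.2 ⟨by omega, by omega⟩)
      (abs_le.2 ⟨by omega, by omega⟩) (abs_le.2 ⟨by omega, by omega⟩) (by omega) (by
        simp only [zv] at h; push_cast at h ⊢; linear_combination -h))
    (fun h => hz (by
        simp only [zv] at h ⊢; push_cast at h ⊢; linear_combination -h))
    (fun h => I.ne (2 * X + 1) (2 * Y - 1) (2 * W) (abs_le.2 ⟨by omega, by omega⟩)
      (abs_le.2 ⟨by omega, by omega⟩) (abs_le.2 ⟨by omega, by omega⟩) (by omega) (by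
        simp only [zv] at h; push_cast at h ⊢; linear_combination -h))
    (fun h => I.ne (2 * X + 1) (2 * Y) (2 * W - 1) (abs_le.2 ⟨by omega, by omega⟩)
      (abs_le.2 ⟨by omega, by omega⟩) (abs_le.2 ⟨by omega, by omega⟩) (by omega) (by
        simp only [zv] at h; push_cast at h ⊢; linear_combination -h))
  have G3 := Gd.swap (Or.inr rfl) G2
  have G4 := G3.step (Or.inl rfl) (fun h => ha (by rw [h]; ring))
    (fun h => hac' (by rw [h]; ring)) (fun h => hab' (by rw [h]; ring))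
    (fun h => hac (by linear_combination h)) (fun h => hab (by linear_combination h))
    (fun h => I.ne (2 * X + 2) (2 * Y - 1) (2 * W - 1) (abs_le.2 ⟨by omega, by omega⟩)
      (abs_le.2 ⟨by omega, by omega⟩) (abs_le.2 ⟨by omega, by omega⟩) (by omega) (by
        simp only [zv] at h; push_cast at h ⊢; linear_combination h))
    (fun h => I.ne (2 * X + 2) (2 * Y) (2 * W) (abs_le.2 ⟨by omega, by omega⟩)
      (abs_le.2 ⟨by omega, by omega⟩) (abs_le.2 ⟨by omega, by omega⟩) (by omega) (by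
        simp only [zv] at h; push_cast at h ⊢; linear_combination h))
    (fun h => I.ne (2 * X + 1) (2 * Y) (2 * W - 1) (abs_le.2 ⟨by omega, by omega⟩)
      (abs_le.2 ⟨by omega, by omega⟩) (abs_le.2 ⟨by omega, by omega⟩) (by omega) (by
        simp only [zv] at h; push_cast at h ⊢; linear_combination h))
    (fun h => I.ne (2 * X + 1) (2 * Y - 1) (2 * W) (abs_le.2 ⟨by omega, by omega⟩)
      (abs_le.2 ⟨by omega, by omega⟩) (abs_le.2 ⟨by omega, by omega⟩) (by omega) (by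
        simp only [zv] at h; push_cast at h ⊢; linear_combination h))
  exact G4.cast (by ring) (by ring) (by ring) (by ring) (by ring) (by ring) (by ring)

theorem Ev.minus {p a b c : ℚ} {X Y W R : ℤ} (I : Ind a b c R) (hX : |2 * X| + 3 ≤ R)
    (hY : |2 * Y| + 3 ≤ R) (hW : |2 * W| + 3 ≤ R) (hn : ¬ (X - 1 = 0 ∧ Y = 0 ∧ W = 0))
    (E : Ev p a b c X Y W) : Ev p a b c (X - 1) Y W := by
  have hX' := abs_le.1 (show |2 * X| ≤ R - 3 by linarith)
  have hY' := abs_le.1 (show |2 * Y| ≤ R - 3 by linarith)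
  have hW' := abs_le.1 (show |2 * W| ≤ R - 3 by linarith)
  have ha := I.ne 1 0 0 (abs_le.2 ⟨by omega, by omega⟩) (abs_le.2 ⟨by omega, by omega⟩)
    (abs_le.2 ⟨by omega, by omega⟩) (by omega)
  have hab := I.ne 1 (-1) 0 (abs_le.2 ⟨by omega, by omega⟩) (abs_le.2 ⟨by omega, by omega⟩)
    (abs_le.2 ⟨by omega, by omega⟩) (by omega)
  have hac := I.ne 1 0 (-1) (abs_le.2 ⟨by omega, by omega⟩) (abs_le.2 ⟨by omega, by omega⟩)
    (abs_le.2 ⟨by omega, by omega⟩) (by omega)
  have hab' := I.ne 1 1 0 (abs_le.2 ⟨by omega, by omega⟩) (abs_le.2 ⟨by omega, by omega⟩)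
    (abs_le.2 ⟨by omega, by omega⟩) (by omega)
  have hac' := I.ne 1 0 1 (abs_le.2 ⟨by omega, by omega⟩) (abs_le.2 ⟨by omega, by omega⟩)
    (abs_le.2 ⟨by omega, by omega⟩) (by omega)
  push_cast at ha hab hac hab' hac'
  have G2 := Gd.step (Or.inl rfl) E (fun h => ha (by rw [h]; ring)) (fun h => hab (by rw [h]; ring))
    (fun h => hac (by rw [h]; ring)) (fun h => hab' (by linear_combination h))
    (fun h => hac' (by linear_combination h))
    (fun h => I.ne (2 * X - 2) (2 * Y - 1) (2 * W - 1) (abs_le.2 ⟨by omega, by omega⟩)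
      (abs_le.2 ⟨by omega, by omega⟩) (abs_le.2 ⟨by omega, by omega⟩) (by omega) (by
        simp only [zv] at h; push_cast at h ⊢; linear_combination -h))
    (fun h => I.ne (2 * X - 2) (2 * Y) (2 * W) (abs_le.2 ⟨by omega, by omega⟩)
      (abs_le.2 ⟨by omega, by omega⟩) (abs_le.2 ⟨by omega, by omega⟩) (by omega) (by
        simp only [zv] at h; push_cast at h ⊢; linear_combination -h))
    (fun h => I.ne (2 * X - 1) (2 * Y - 1) (2 * W) (abs_le.2 ⟨by omega, by omega⟩)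
      (abs_le.2 ⟨by omega, by omega⟩) (abs_le.2 ⟨by omega, by omega⟩) (by omega) (by
        simp only [zv] at h; push_cast at h ⊢; linear_combination -h))
    (fun h => I.ne (2 * X - 1) (2 * Y) (2 * W - 1) (abs_le.2 ⟨by omega, by omega⟩)
      (abs_le.2 ⟨by omega, by omega⟩) (abs_le.2 ⟨by omega, by omega⟩) (by omega) (by
        simp only [zv] at h; push_cast at h ⊢; linear_combination -h))
  have G3 := Gd.swap (Or.inl rfl) G2
  have G4 := G3.step (Or.inr rfl) (fun h => ha (by rw [h]; ring))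
    (fun h => hac' (by rw [h]; ring)) (fun h => hab' (by rw [h]; ring))
    (fun h => hac (by linear_combination h)) (fun h => hab (by linear_combination h))
    (fun h => I.ne (2 * X - 2) (2 * Y - 1) (2 * W - 1) (abs_le.2 ⟨by omega, by omega⟩)
      (abs_le.2 ⟨by omega, by omega⟩) (abs_le.2 ⟨by omega, by omega⟩) (by omega) (by
        simp only [zv] at h; push_cast at h ⊢; linear_combination h))
    (fun h => I.ne (2 * X - 2) (2 * Y) (2 * W) (abs_le.2 ⟨by omega, by omega⟩)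
      (abs_le.2 ⟨by omega, by omega⟩) (abs_le.2 ⟨by omega, by omega⟩) (by omega) (by
        simp only [zv] at h; push_cast at h ⊢; linear_combination h))
    (fun h => I.ne (2 * X - 3) (2 * Y) (2 * W - 1) (abs_le.2 ⟨by omega, by omega⟩)
      (abs_le.2 ⟨by omega, by omega⟩) (abs_le.2 ⟨by omega, by omega⟩) (by omega) (by
        simp only [zv] at h; push_cast at h ⊢; linear_combination h))
    (fun h => I.ne (2 * X - 3) (2 * Y - 1) (2 * W) (abs_le.2 ⟨by omega, by omega⟩)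
      (abs_le.2 ⟨by omega, by omega⟩) (abs_le.2 ⟨by omega, by omega⟩) (by omega) (by
        simp only [zv] at h; push_cast at h ⊢; linear_combination h))
  have G5 := Gd.swap (Or.inr rfl) G4
  exact G5.cast (by ring) (by ring) (by ring) (by ring) (by ring) (by ring) (by ring)

theorem Ev.moveX {p a b c : ℚ} {X Y W N : ℤ} (I : Ind a b c (2 * N + 3)) (hX : |X| ≤ N)
    (hY : |Y| ≤ N) (hW : |W| ≤ N) (hn : ¬ (Y = 0 ∧ W = 0)) (E : Ev p a b c X Y W) (X' : ℤ)
    (hX' : |X'| ≤ N) : Ev p a b c X' Y W := by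
  have key : ∀ Z : ℤ, |Z| ≤ N → |2 * Z| + 3 ≤ 2 * N + 3 := by
    intro Z hZ
    rw [abs_mul]
    have : |(2 : ℤ)| = 2 := rfl
    rw [this]; linarith
  have h1 := abs_le.1 hX
  have h2 := abs_le.1 hX'
  have up : ∀ n : ℕ, X + n ≤ N → Ev p a b c (X + n) Y W := by
    intro n
    induction n with
    | zero => intro _; simpa using E
    | succ n ih =>
      intro h
      have ih' := ih (by push_cast at h; omega)
      have := Ev.plus I (key _ (abs_le.2 ⟨by omega, by push_cast at h; omega⟩)) (key _ hY)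
        (key _ hW) (by omega) ih'
      convert this using 1
      push_cast; ring
  have dn : ∀ n : ℕ, -N ≤ X - n → Ev p a b c (X - n) Y W := by
    intro n
    induction n with
    | zero => intro _; simpa using E
    | succ n ih =>
      intro h
      have ih' := ih (by push_cast at h; omega)
      have := Ev.minus I (key _ (abs_le.2 ⟨by push_cast at h; omega, by omega⟩)) (key _ hY)
        (key _ hW) (by omega) ih'
      convert this using 1
      push_cast; ring
  rcases le_total X X' with h | h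
  · obtain ⟨n, hn⟩ := Int.eq_ofNat_of_zero_le (sub_nonneg.2 h)
    have e : X' = X + n := by omega
    rw [e]; exact up n (by omega)
  · obtain ⟨n, hn⟩ := Int.eq_ofNat_of_zero_le (sub_nonneg.2 h)
    have e : X' = X - n := by omega
    rw [e]; exact dn n (by omega)

theorem Ev.moveY {p a b c : ℚ} {X Y W N : ℤ} (I : Ind a b c (2 * N + 3)) (hX : |X| ≤ N)
    (hY : |Y| ≤ N) (hW : |W| ≤ N) (hn : ¬ (X = 0 ∧ W = 0)) (E : Ev p a b c X Y W) (Y' : ℤ)
    (hY' : |Y'| ≤ N) : Ev p a b c X Y' W :=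
  (Ev.moveX I.bc hY hX hW hn E.bc Y' hY').bc

theorem Ev.moveW {p a b c : ℚ} {X Y W N : ℤ} (I : Ind a b c (2 * N + 3)) (hX : |X| ≤ N)
    (hY : |Y| ≤ N) (hW : |W| ≤ N) (hn : ¬ (Y = 0 ∧ X = 0)) (E : Ev p a b c X Y W) (W' : ℤ)
    (hW' : |W'| ≤ N) : Ev p a b c X Y W' :=
  (Ev.moveX I.bd hW hY hX hn E.bd W' hW').bd

theorem Ev.reach {p a b c : ℚ} {N : ℤ} (I : Ind a b c (2 * N + 3)) (hN : 1 ≤ N)
    (E : Ev p a b c 1 0 0) (X Y W : ℤ) (hX : |X| ≤ N) (hY : |Y| ≤ N) (hW : |W| ≤ N)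
    (h0 : X ≠ 0) : Ev p a b c X Y W := by
  have h1 : |(1 : ℤ)| ≤ N := by simpa using hN
  have h2 : |(0 : ℤ)| ≤ N := by simpa using (by omega : (0 : ℤ) ≤ N)
  have E1 := Ev.moveY I h1 h2 h2 (by omega) E 1 h1
  have E2 := Ev.moveX I h1 h1 h2 (by omega) E1 X hX
  have E3 := Ev.moveW I hX h1 h2 (by omega) E2 W hW
  exact Ev.moveY I hX h1 hW (by omega) E3 Y hY

end Pool.Agent.H43.HL
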