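import Mathlib

set_option autoImplicit false

/-!
# Integral points of exponent four: the algebraic step

Sections of the rational elliptic surface `x (1 - w ^ 2) = (s - p)(s - q)(s - r)(s - t)`.  A section
`s = - A / B` (in the coset in question) is described by eight polynomials `U`, `V` with
`A + p B = x Ua Va`, `A + q B = Ub Vb`, `A + r B = Uc Vc`, `A + t B = Ud Vd` and
`Ua Ub Uc Ud + Va Vb Vc Vd = 2 B ^ 2`.
-/

open Polynomial

namespace Pool.Agent.H43.HL

/-- a section with distinguished index `a` -/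
structure St (p q r t : ℚ) (Ua Ub Uc Ud Va Vb Vc Vd B : ℚ[X]) : Prop where
  h1 : Ub * Vb = X * Ua * Va + (C q - C p) * B
  h2 : Uc * Vc = X * Ua * Va + (C r - C p) * B
  h3 : Ud * Vd = X * Ua * Va + (C t - C p) * B
  h4 : Ua * Ub * Uc * Ud + Va * Vb * Vc * Vd = 2 * B ^ 2
  cop : IsCoprime (X * Ua * Va) B

variable {p q r t : ℚ} {Ua Ub Uc Ud Va Vb Vc Vd B : ℚ[X]}

theorem cop_add {Y B u : ℚ[X]} (h : IsCoprime Y B) : IsCoprime (Y + u * B) B := by
  simpa using h.add_mul_right_left u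

theorem cop_pair {Y B u : ℚ[X]} (h : IsCoprime Y B) (hu : IsUnit u) : IsCoprime Y (Y + u * B) := by
  have h1 : IsCoprime Y (u * B) := (isCoprime_mul_unit_left_right hu Y B).2 h
  simpa [add_comm] using h1.add_mul_left_right 1

theorem isUnit_C_sub {a b : ℚ} (h : a ≠ b) : IsUnit (C a - C b : ℚ[X]) := by
  rw [← map_sub]
  exact isUnit_C.2 (isUnit_iff_ne_zero.2 (sub_ne_zero.2 h))

namespace St

variable (S : St p q r t Ua Ub Uc Ud Va Vb Vc Vd B)

include S

theorem copB : IsCoprime (Ub * Vb) B := S.h1 ▸ cop_add S.cop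

theorem copC : IsCoprime (Uc * Vc) B := S.h2 ▸ cop_add S.cop

theorem copD : IsCoprime (Ud * Vd) B := S.h3 ▸ cop_add S.cop

theorem ab (h : q ≠ p) : IsCoprime (X * Ua * Va) (Ub * Vb) :=
  S.h1 ▸ cop_pair S.cop (isUnit_C_sub h)

theorem ac (h : r ≠ p) : IsCoprime (X * Ua * Va) (Uc * Vc) :=
  S.h2 ▸ cop_pair S.cop (isUnit_C_sub h)

theorem ad (h : t ≠ p) : IsCoprime (X * Ua * Va) (Ud * Vd) :=
  S.h3 ▸ cop_pair S.cop (isUnit_C_sub h)

theorem bc (h : r ≠ q) : IsCoprime (Ub * Vb) (Uc * Vc) := by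
  have e : Uc * Vc = Ub * Vb + (C r - C q) * B := by
    linear_combination S.h2 - S.h1
  exact e ▸ cop_pair S.copB (isUnit_C_sub h)

theorem bd (h : t ≠ q) : IsCoprime (Ub * Vb) (Ud * Vd) := by
  have e : Ud * Vd = Ub * Vb + (C t - C q) * B := by
    linear_combination S.h3 - S.h1
  exact e ▸ cop_pair S.copB (isUnit_C_sub h)

theorem cd (h : t ≠ r) : IsCoprime (Uc * Vc) (Ud * Vd) := by
  have e : Ud * Vd = Uc * Vc + (C t - C r) * B := by
    linear_combination S.h3 - S.h2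
  exact e ▸ cop_pair S.copC (isUnit_C_sub h)

/-- interchange `U` and `V` (the involution `w ↦ - w`) -/
theorem swap : St p q r t Va Vb Vc Vd Ua Ub Uc Ud B where
  h1 := by linear_combination S.h1
  h2 := by linear_combination S.h2
  h3 := by linear_combination S.h3
  h4 := by linear_combination S.h4
  cop := by
    have : X * Va * Ua = X * Ua * Va := by ring
    rw [this]; exact S.cop

theorem permBC : St p r q t Ua Uc Ub Ud Va Vc Vb Vd B where
  h1 := S.h2
  h2 := S.h1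
  h3 := S.h3
  h4 := by linear_combination S.h4
  cop := S.cop

theorem permBD : St p t r q Ua Ud Uc Ub Va Vd Vc Vb B where
  h1 := S.h3
  h2 := S.h2
  h3 := S.h1
  h4 := by linear_combination S.h4
  cop := S.cop

theorem exists_new (hrp : r ≠ p) (htp : t ≠ p) (hrq : r ≠ q) (htq : t ≠ q) : ∃ Ua' Ub' Vc' Vd' B' : ℚ[X],
      (C p - C r) * (C p - C t) * (Va * Vb) - 2 * (Uc * Ud) = Ua * Ua' ∧
      (C q - C r) * (C q - C t) * (Va * Vb) - 2 * (Uc * Ud) = Ub * Ub' ∧
      (C r - C p) * (C r - C q) * (Uc * Ud) - 2 * (X * (Va * Vb)) = Vc * Vc' ∧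
      (C t - C p) * (C t - C q) * (Uc * Ud) - 2 * (X * (Va * Vb)) = Vd * Vd' ∧
      X * (Va * Vb) ^ 2 + (Uc * Ud) ^ 2 = B * B' := by
  have h1 := S.h1
  have h2 := S.h2
  have h3 := S.h3
  have h4 := S.h4
  have ca := S.ac hrp
  have cb := S.ad htp
  have cc := S.bc hrq
  have cd := S.bd htq
  suffices h : Ua ∣ (C p - C r) * (C p - C t) * (Va * Vb) - 2 * (Uc * Ud) ∧
      Ub ∣ (C q - C r) * (C q - C t) * (Va * Vb) - 2 * (Uc * Ud) ∧
      Vc ∣ (C r - C p) * (C r - C q) * (Uc * Ud) - 2 * (X * (Va * Vb)) ∧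
      Vd ∣ (C t - C p) * (C t - C q) * (Uc * Ud) - 2 * (X * (Va * Vb)) ∧
      B ∣ X * (Va * Vb) ^ 2 + (Uc * Ud) ^ 2 by
    obtain ⟨⟨x1, e1⟩, ⟨x2, e2⟩, ⟨x3, e3⟩, ⟨x4, e4⟩, ⟨x5, e5⟩⟩ := h
    exact ⟨x1, x2, x3, x4, x5, e1, e2, e3, e4, e5⟩
  refine ⟨?_, ?_, ?_, ?_, ?_⟩
  · have c1 : IsCoprime Ua (Vc * Vd) := by
      refine IsCoprime.mul_right ?_ ?_
      · exact (ca.of_mul_left_left.of_mul_left_right).of_mul_right_right
      · exact (cb.of_mul_left_left.of_mul_left_right).of_mul_right_right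
    refine c1.dvd_of_dvd_mul_right ⟨-((C p - C r) * (C p - C t)) * (Ub * Uc * Ud) -
      2 * X * Va * (X * Ua * Va + ((C r - C p) + (C t - C p)) * B), ?_⟩
    linear_combination (C p - C r) * (C p - C t) * h4 - 2 * (Ud * Vd) * h2 -
      2 * (X * Ua * Va + (C r - C p) * B) * h3
  · have c1 : IsCoprime Ub (Vc * Vd) := by
      refine IsCoprime.mul_right ?_ ?_
      · exact cc.of_mul_left_left.of_mul_right_right
      · exact cd.of_mul_left_left.of_mul_right_right
    refine c1.dvd_of_dvd_mul_right ⟨-((C q - C r) * (C q - C t)) * (Ua * Uc * Ud) -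
      2 * Vb * (Ub * Vb + ((C r - C q) + (C t - C q)) * B), ?_⟩
    linear_combination (C q - C r) * (C q - C t) * h4 - 2 * (Ud * Vd) * (h2 - h1) -
      2 * (Ub * Vb + (C r - C q) * B) * (h3 - h1)
  · have c1 : IsCoprime Vc (Ua * Ub) := by
      refine IsCoprime.mul_right ?_ ?_
      · exact ((ca.of_mul_left_left.of_mul_left_right).of_mul_right_right).symm
      · exact (cc.of_mul_left_left.of_mul_right_right).symm
    refine c1.dvd_of_dvd_mul_right ⟨-((C r - C p) * (C r - C q)) * (Va * Vb * Vd) -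
      2 * Uc * (Uc * Vc + ((C p - C r) + (C q - C r)) * B), ?_⟩
    linear_combination (C r - C p) * (C r - C q) * h4 + 2 * (Ub * Vb) * h2 -
      2 * (Uc * Vc + (C p - C r) * B) * (h1 - h2)
  · have c1 : IsCoprime Vd (Ua * Ub) := by
      refine IsCoprime.mul_right ?_ ?_
      · exact ((cb.of_mul_left_left.of_mul_left_right).of_mul_right_right).symm
      · exact (cd.of_mul_left_left.of_mul_right_right).symm
    refine c1.dvd_of_dvd_mul_right ⟨-((C t - C p) * (C t - C q)) * (Va * Vb * Vc) -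
      2 * Ud * (Ud * Vd + ((C p - C t) + (C q - C t)) * B), ?_⟩
    linear_combination (C t - C p) * (C t - C q) * h4 + 2 * (Ub * Vb) * h3 -
      2 * (Ud * Vd + (C p - C t) * B) * (h1 - h3)
  · have c1 : IsCoprime B (Ua * Ub * (Vc * Vd)) := by
      refine IsCoprime.mul_right (IsCoprime.mul_right ?_ ?_) (IsCoprime.mul_right ?_ ?_)
      · exact (S.cop.of_mul_left_left.of_mul_left_right).symm
      · exact S.copB.of_mul_left_left.symm
      · exact S.copC.of_mul_left_right.symm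
      · exact S.copD.of_mul_left_right.symm
    refine c1.dvd_of_dvd_mul_right ⟨Va * Vb * Vc * Vd * ((X * Ua * Va) *
      ((C q - C p) - (C r - C p) - (C t - C p)) - (C r - C p) * (C t - C p) * B) +
      2 * B * ((Uc * Vc) * (Ud * Vd)), ?_⟩
    linear_combination (Uc * Ud * Vc * Vd) * h4 + (Va * Vb * Vc * Vd) * (X * Ua * Va) * h1
      - (Va * Vb * Vc * Vd) * ((Ud * Vd) * h2 + (X * Ua * Va + (C r - C p) * B) * h3)

end St

end Pool.Agent.H43.HL
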